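import Pool.Agent.H60.HX.Chain

/-!
# Components of annuli of doubling sets
-/

set_option autoImplicit false

namespace Pool.Agent.H60.HX

open Pool.Agent.H60.W Filter

variable {X : Type*} [PseudoMetricSpace X]

theorem exists_scale (σ : ℝ → ℝ) (hσ : Tendsto (fun s => σ s / Real.log s) atTop atTop)
    (c δ s : ℝ) (hδ : 0 ≤ δ) (hs : 1 ≤ s) (q : ℕ) :
    ∃ k : ℕ, 3 ≤ k ∧ 1 ≤ 2 ^ k * s - 3 * s ∧
      ∀ t, 2 ^ k * s - 3 * s ≤ t → c + 2 * δ * ((1 + k * q : ℕ) : ℝ) < σ t := by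
  have hl2 : 0 < Real.log 2 := Real.log_pos (by norm_num)
  obtain ⟨t₀, ht₀⟩ := eventually_atTop.1
    ((hσ.eventually_ge_atTop ((2 * δ * q + 1) / Real.log 2)).and (eventually_ge_atTop (2 : ℝ)))
  obtain ⟨k, hk⟩ := exists_nat_gt (max (max 3 t₀) (c + 2 * δ + 2 * δ * q + 1))
  have hk3 : (3 : ℝ) < k := lt_of_le_of_lt ((le_max_left _ _).trans (le_max_left _ _)) hk
  have hkt : t₀ < k := lt_of_le_of_lt ((le_max_right _ _).trans (le_max_left _ _)) hk
  have hkc : c + 2 * δ + 2 * δ * q + 1 < k := lt_of_le_of_lt (le_max_right _ _) hk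
  have hk3' : 3 < k := by exact_mod_cast hk3
  obtain ⟨j, rfl⟩ : ∃ j, k = j + 1 := ⟨k - 1, by omega⟩
  have hj : j + 1 ≤ 2 ^ j := Nat.lt_two_pow_self
  have hjR : ((j + 1 : ℕ) : ℝ) ≤ 2 ^ j := by exact_mod_cast hj
  have h4 : (4 : ℝ) ≤ 2 ^ j := le_trans (by exact_mod_cast (by omega : 4 ≤ j + 1)) hjR
  have hlow : (2 : ℝ) ^ j ≤ 2 ^ (j + 1) * s - 3 * s := by
    rw [pow_succ]
    nlinarith
  refine ⟨j + 1, hk3'.le, by linarith, fun t ht => ?_⟩
  have h5 : (2 : ℝ) ^ j ≤ t := hlow.trans ht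
  obtain ⟨h6, h7⟩ := ht₀ t (by linarith)
  have hlogt : 0 < Real.log t := Real.log_pos (by linarith)
  rw [le_div_iff₀ hlogt] at h6
  have h8 : (j : ℝ) * Real.log 2 ≤ Real.log t := by
    rw [← Real.log_pow]
    exact Real.log_le_log (by positivity) h5
  have h9 : (2 * δ * q + 1) * j ≤ (2 * δ * q + 1) / Real.log 2 * Real.log t := by
    rw [div_mul_eq_mul_div, le_div_iff₀ hl2]
    have : 0 ≤ 2 * δ * q + 1 := by positivity
    nlinarith
  push_cast at hkc ⊢
  nlinarith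

/-- the set of the points of `A` in a doubling set and in an annulus -/
def An {m : ℕ} {Y : Fin m → Type*} [∀ i, PseudoMetricSpace (Y i)] (A W : Set X)
    (f : ∀ i, X → Y i) (o : ∀ i, Y i) (L : ℝ) (j : Fin m → ℕ) : Set X :=
  {x | x ∈ A ∧ x ∈ W ∧ ∀ i, (j i : ℝ) * L ≤ dist (o i) (f i x) ∧
    dist (o i) (f i x) < ((j i : ℝ) + 1) * L}

theorem comp_bound {m : ℕ} {Y : Fin m → Type*} [∀ i, PseudoMetricSpace (Y i)] {A W : Set X}
    {f : ∀ i, X → Y i} {o : ∀ i, Y i} {δ : ℝ} {ρ σ : ℝ → ℝ} (hY : ∀ i, Hy (Y i) δ)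
    (hρ : Monotone ρ) (hf : ∀ x ∈ A, ∀ y ∈ A, (∀ i, dist (f i x) (f i y) ≤ ρ (dist x y)) ∧
      ∃ i, σ (dist x y) ≤ dist (f i x) (f i y)) {N q k : ℕ} {R : ℝ} (hW : Lsd N R W)
    (hN : N ≤ 2 ^ q) {s L : ℝ} (hs0 : 0 ≤ s) (hs : R ≤ s) (h1 : 1 ≤ 2 ^ k * s - 3 * s)
    (hk : ∀ t, 2 ^ k * s - 3 * s ≤ t →
      2 * L + ρ (2 * s) + 2 * δ * ((1 + k * q : ℕ) : ℝ) < σ t)
    (j : Fin m → ℕ) {M : ℕ} {a b : X} (hab : Ch (An A W f o L j) (2 * s) M a b) :
    dist a b ≤ 2 ^ k * s - 3 * s := by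
  classical
  by_contra hcon
  push Not at hcon
  set D := 2 ^ k * s - 3 * s with hD
  obtain ⟨x, h0, hM, hxS, hxd⟩ := hab
  have hex : ∃ t, t ≤ M ∧ D < dist a (x t) := ⟨M, le_rfl, by rw [hM]; exact hcon⟩
  obtain ⟨hT1, hT2⟩ := Nat.find_spec hex
  set T := Nat.find hex with hT
  have hTmin : ∀ t < T, dist a (x t) ≤ D := by
    intro t ht
    have := Nat.find_min hex ht
    push Not at this
    exact this (by omega)
  have hT0 : 0 < T := by
    rcases Nat.eq_zero_or_pos T with h | h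
    · rw [h, h0, dist_self] at hT2
      linarith
    · exact h
  have hTle : dist a (x T) ≤ D + 2 * s := by
    have e1 := hTmin (T - 1) (by omega)
    have e2 := hxd (T - 1) (by omega)
    rw [Nat.sub_add_cancel hT0] at e2
    have := dist_triangle a (x (T - 1)) (x T)
    linarith
  have hspos : 0 < s := by
    rcases hs0.lt_or_eq with h | h
    · exact h
    · rw [hD, ← h] at h1
      norm_num at h1
  -- the part up to the time `T`
  have hch : Ch (An A W f o L j ∩ Metric.ball a (2 ^ k * s)) (2 * s) T a (x T) := by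
    refine ⟨x, h0, rfl, fun t ht => ⟨hxS t (by omega), ?_⟩, fun t ht => hxd t (by omega)⟩
    rw [Metric.mem_ball, dist_comm]
    rcases ht.lt_or_eq with h | h
    · have := hTmin t h
      linarith
    · rw [h]
      linarith
  obtain ⟨M', y, hy0, hyM, hyS, hyd, hysep⟩ := hch.short
  have hlen : M' ≤ 2 ^ (1 + k * q) := by
    refine short_len hW hN hs0 hs k a (S := An A W f o L j ∩ Metric.ball a (2 ^ k * s)) ?_ M' y
      hyS hysep
    rintro z ⟨hz, hzb⟩
    exact ⟨hz.2.1, hzb⟩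
  have hM'1 : 1 ≤ M' := by
    rcases Nat.eq_zero_or_pos M' with h | h
    · exfalso
      rw [h] at hyM
      rw [← hyM, hy0, dist_self] at hT2
      linarith
    · exact h
  have haA : a ∈ A := by
    have := hyS 0 (Nat.zero_le _)
    rw [hy0] at this
    exact this.1.1
  have hTA : x T ∈ A := by
    have := hyS M' le_rfl
    rw [hyM] at this
    exact this.1.1
  have hdisp : ∀ i, dist (f i a) (f i (x T)) ≤
      2 * L + ρ (2 * s) + 2 * δ * ((1 + k * q : ℕ) : ℝ) := by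
    intro i
    have hg := gp_chain (hY i) (o i) ((j i : ℝ) * L - ρ (2 * s) / 2) (1 + k * q) M' hM'1 hlen
      (fun t => f i (y t)) (fun t ht => by
        have e1 := (hyS t ht.le).1
        have e2 := (hyS (t + 1) ht).1
        have e3 := ((hf _ e1.1 _ e2.1).1 i).trans (hρ (hyd t ht))
        have e4 := (e1.2.2 i).1
        have e5 := (e2.2.2 i).1
        unfold gp
        linarith)
    simp only [hy0, hyM] at hg
    unfold gp at hg
    have e1 := (hyS 0 (Nat.zero_le _)).1.2.2 i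
    have e2 := (hyS M' le_rfl).1.2.2 i
    rw [hy0] at e1
    rw [hyM] at e2
    have e3 := e1.2
    have e4 := e2.2
    linarith
  obtain ⟨i, hi⟩ := (hf a haA (x T) hTA).2
  have h5 := hk (dist a (x T)) hT2.le
  have h6 := hdisp i
  linarith

end Pool.Agent.H60.HX
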