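import Pool.Agent.H60.W.Final

/-!
# Chains in doubling sets
-/

set_option autoImplicit false

namespace Pool.Agent.H60.HX

open Pool.Agent.H60.W

variable {X : Type*} [PseudoMetricSpace X]

/-- chains of `M` steps of length at most `ρ` in `S` -/
def Ch (S : Set X) (ρ : ℝ) (M : ℕ) (a b : X) : Prop :=
  ∃ x : ℕ → X, x 0 = a ∧ x M = b ∧ (∀ t ≤ M, x t ∈ S) ∧ ∀ t < M, dist (x t) (x (t + 1)) ≤ ρ

theorem Ch.refl {S : Set X} {ρ : ℝ} {a : X} (h : a ∈ S) : Ch S ρ 0 a a :=
  ⟨fun _ => a, rfl, rfl, fun _ _ => h, fun t ht => absurd ht (Nat.not_lt_zero t)⟩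

theorem Ch.step {S : Set X} {ρ : ℝ} {M : ℕ} {a b c : X} (h : Ch S ρ M a b) (hc : c ∈ S)
    (hbc : dist b c ≤ ρ) : Ch S ρ (M + 1) a c := by
  obtain ⟨x, h0, h1, h2, h3⟩ := h
  refine ⟨fun t => if t ≤ M then x t else c, by simp [h0], by simp, ?_, ?_⟩
  · intro t ht
    by_cases h : t ≤ M
    · simp only [h, if_true]
      exact h2 t h
    · simp only [h, if_false]
      exact hc
  · intro t ht
    have hM : t ≤ M := by omega
    simp only [hM, if_true]
    by_cases h : t + 1 ≤ M
    · simp only [h, if_true]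
      exact h3 t (by omega)
    · have : t = M := by omega
      subst this
      simp only [h, if_false, h1]
      exact hbc

theorem Ch.symm {S : Set X} {ρ : ℝ} {M : ℕ} {a b : X} (h : Ch S ρ M a b) : Ch S ρ M b a := by
  obtain ⟨x, h0, h1, h2, h3⟩ := h
  refine ⟨fun t => x (M - t), by simp [h1], by simp [h0], fun t _ => h2 _ (by omega), ?_⟩
  intro t ht
  have h4 := h3 (M - (t + 1)) (by omega)
  have e : M - (t + 1) + 1 = M - t := by omega
  rw [e, dist_comm] at h4
  exact h4

theorem Ch.trans {S : Set X} {ρ : ℝ} {M M' : ℕ} {a b c : X} (h : Ch S ρ M a b)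
    (h' : Ch S ρ M' b c) : ∃ M'', Ch S ρ M'' a c := by
  induction M' generalizing c with
  | zero =>
    obtain ⟨x, h0, h1, h2, h3⟩ := h'
    have : b = c := h0.symm.trans h1
    exact ⟨M, this ▸ h⟩
  | succ n ih =>
    obtain ⟨x, h0, h1, h2, h3⟩ := h'
    obtain ⟨M'', hM⟩ := ih (c := x n) ⟨x, h0, rfl, fun t ht => h2 t (by omega),
      fun t ht => h3 t (by omega)⟩
    refine ⟨M'' + 1, hM.step (h1 ▸ h2 (n + 1) le_rfl) ?_⟩
    rw [← h1]
    exact h3 n (by omega)

theorem Ch.mem_left {S : Set X} {ρ : ℝ} {M : ℕ} {a b : X} (h : Ch S ρ M a b) : a ∈ S := by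
  obtain ⟨x, h0, -, h2, -⟩ := h
  exact h0 ▸ h2 0 (Nat.zero_le _)

/-- a chain of least length -/
theorem Ch.short {S : Set X} {ρ : ℝ} {M : ℕ} {a b : X} (h : Ch S ρ M a b) :
    ∃ (M' : ℕ) (x : ℕ → X), x 0 = a ∧ x M' = b ∧ (∀ t ≤ M', x t ∈ S) ∧
      (∀ t < M', dist (x t) (x (t + 1)) ≤ ρ) ∧
      ∀ i j, i + 2 ≤ j → j ≤ M' → ρ < dist (x i) (x j) := by
  classical
  have hex : ∃ M, Ch S ρ M a b := ⟨M, h⟩
  obtain ⟨x, h0, h1, h2, h3⟩ := Nat.find_spec hex
  refine ⟨Nat.find hex, x, h0, h1, h2, h3, fun i j hij hj => ?_⟩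
  by_contra hlt
  push Not at hlt
  refine Nat.find_min hex (m := Nat.find hex - (j - i - 1)) (by omega) ?_
  refine ⟨fun t => if t ≤ i then x t else x (t + (j - i - 1)), by simp [h0], ?_, ?_, ?_⟩
  · have e : ¬ Nat.find hex - (j - i - 1) ≤ i := by omega
    simp only [e, if_false]
    rw [Nat.sub_add_cancel (by omega), h1]
  · intro t ht
    by_cases h : t ≤ i
    · simp only [h, if_true]
      exact h2 t (by omega)
    · simp only [h, if_false]
      exact h2 _ (by omega)
  · intro t ht
    by_cases h : t + 1 ≤ i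
    · have h' : t ≤ i := by omega
      simp only [h, h', if_true]
      exact h3 t (by omega)
    · by_cases h' : t ≤ i
      · have : t = i := by omega
        subst this
        simp only [h, le_rfl, if_true, if_false]
        have e : t + 1 + (j - t - 1) = j := by omega
        rw [e]
        exact hlt
      · simp only [h, h', if_false]
        have e : t + 1 + (j - i - 1) = t + (j - i - 1) + 1 := by omega
        rw [e]
        exact h3 _ (by omega)

/-- separated points of a doubling set -/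
theorem sep_card {N : ℕ} {R : ℝ} {W : Set X} (h : Lsd N R W) {s : ℝ} (hs0 : 0 ≤ s) (hs : R ≤ s)
    (k : ℕ) (a : X) (n : ℕ) (z : Fin n → X) (hz : ∀ i, z i ∈ W ∩ Metric.ball a (2 ^ k * s))
    (hsep : ∀ i j, i ≠ j → 2 * s ≤ dist (z i) (z j)) : n ≤ N ^ k := by
  obtain ⟨c, hc⟩ := h.cover hs0 hs k a
  choose q hq using fun i => Set.mem_iUnion.1 (hc (hz i))
  have hinj : Function.Injective q := by
    intro i j hij
    by_contra hne
    have h1 := hq i
    have h2 := hq j
    rw [← hij] at h2
    rw [Metric.mem_ball] at h1 h2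
    have := dist_triangle_right (z i) (z j) (c (q i))
    have := hsep i j hne
    linarith
  have := Fintype.card_le_of_injective q hinj
  simpa using this

/-- the length of a shortest chain in a ball is polynomial in the radius -/
theorem short_len {N q : ℕ} {R : ℝ} {W S : Set X} (h : Lsd N R W) (hN : N ≤ 2 ^ q) {s : ℝ}
    (hs0 : 0 ≤ s) (hs : R ≤ s) (k : ℕ) (a : X) (hS : S ⊆ W ∩ Metric.ball a (2 ^ k * s))
    (M : ℕ) (x : ℕ → X) (hx : ∀ t ≤ M, x t ∈ S)
    (hsep : ∀ i j, i + 2 ≤ j → j ≤ M → 2 * s < dist (x i) (x j)) : M ≤ 2 ^ (1 + k * q) := by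
  have h1 : M / 2 + 1 ≤ N ^ k := by
    refine sep_card h hs0 hs k a (M / 2 + 1) (fun i => x (2 * i)) (fun i => ?_) ?_
    · exact hS (hx _ (by have := i.2; omega))
    · intro i j hij
      have hi := i.2
      have hj := j.2
      rcases lt_or_gt_of_ne (fun e => hij (Fin.ext e) : (i : ℕ) ≠ j) with hlt | hlt
      · exact (hsep (2 * i) (2 * j) (by omega) (by omega)).le
      · rw [dist_comm]
        exact (hsep (2 * j) (2 * i) (by omega) (by omega)).le
  have h2 : N ^ k ≤ 2 ^ (k * q) := by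
    rw [mul_comm, pow_mul]
    exact Nat.pow_le_pow_left hN k
  have h3 : 2 ^ (1 + k * q) = 2 * 2 ^ (k * q) := by rw [pow_add, pow_one]
  omega

/-! ## Hyperbolic spaces -/

/-- the four point condition -/
def Hy (Y : Type*) [PseudoMetricSpace Y] (δ : ℝ) : Prop :=
  ∀ x y z w : Y, dist x y + dist z w ≤ max (dist x z + dist y w) (dist x w + dist y z) + 2 * δ

/-- the Gromov product -/
noncomputable def gp {Y : Type*} [PseudoMetricSpace Y] (w x y : Y) : ℝ :=
  (dist w x + dist w y - dist x y) / 2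

theorem gp_min {Y : Type*} [PseudoMetricSpace Y] {δ : ℝ} (h : Hy Y δ) (w x y z : Y) :
    min (gp w x y) (gp w y z) - δ ≤ gp w x z := by
  have h1 := h x z y w
  unfold gp
  rw [dist_comm y w, dist_comm z w, dist_comm x w, dist_comm z y] at h1
  rcases le_total (dist x y + dist w z) (dist w x + dist y z) with h2 | h2
  · rw [max_eq_right h2] at h1
    have := min_le_right ((dist w x + dist w y - dist x y) / 2)
      ((dist w y + dist w z - dist y z) / 2)
    linarith
  · rw [max_eq_left h2] at h1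
    have := min_le_left ((dist w x + dist w y - dist x y) / 2)
      ((dist w y + dist w z - dist y z) / 2)
    linarith

theorem gp_chain {Y : Type*} [PseudoMetricSpace Y] {δ : ℝ} (h : Hy Y δ) (w : Y) (g : ℝ) :
    ∀ p M : ℕ, 1 ≤ M → M ≤ 2 ^ p → ∀ u : ℕ → Y, (∀ t < M, g ≤ gp w (u t) (u (t + 1))) →
      g - p * δ ≤ gp w (u 0) (u M) := by
  have hδ : 0 ≤ δ := by
    have := h w w w w
    simp only [dist_self, add_zero, max_self, zero_add] at this
    linarith
  intro p
  induction p with
  | zero =>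
    intro M h1 h2 u hu
    have : M = 1 := by simpa using le_antisymm h2 h1
    subst this
    have := hu 0 (by norm_num)
    simpa using this
  | succ p ih =>
    intro M h1 h2 u hu
    push_cast
    by_cases hM : M ≤ 2 ^ p
    · have := ih M h1 hM u hu
      nlinarith
    · push Not at hM
      have hp : 1 ≤ 2 ^ p := Nat.one_le_two_pow
      have e : (2 : ℕ) ^ (p + 1) = 2 * 2 ^ p := by rw [pow_succ, mul_comm]
      have a1 := ih (2 ^ p) hp le_rfl u fun t ht => hu t (by omega)
      have a2 := ih (M - 2 ^ p) (by omega) (by omega) (fun t => u (t + 2 ^ p)) fun t ht => by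
        have := hu (t + 2 ^ p) (by omega)
        have e2 : t + 1 + 2 ^ p = t + 2 ^ p + 1 := by omega
        simp only [e2]
        exact this
      simp only [zero_add] at a2
      rw [Nat.sub_add_cancel hM.le] at a2
      have a3 := gp_min h w (u 0) (u (2 ^ p)) (u M)
      have a4 : g - p * δ ≤ min (gp w (u 0) (u (2 ^ p))) (gp w (u (2 ^ p)) (u M)) := le_min a1 a2
      linarith

end Pool.Agent.H60.HX
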