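import Pool.Agent.H60.HX.Bound

/-!
# Families which embed into products of hyperbolic spaces
-/

set_option autoImplicit false

namespace Pool.Agent.H60.HX

open Pool.Agent.H60.W Filter

variable {X : Type*} [PseudoMetricSpace X]

/-- the members of `G` embed uniformly into products of `m` hyperbolic spaces -/
def Emb (m : ℕ) (G : Set (Set X)) : Prop :=
  ∃ (δ : ℝ) (ρ σ : ℝ → ℝ), Monotone ρ ∧ Tendsto (fun s => σ s / Real.log s) atTop atTop ∧
    ∀ A ∈ G, ∃ (Y : Fin m → Type) (_ : ∀ i, PseudoMetricSpace (Y i)) (f : ∀ i, X → Y i),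
      (∀ i, Hy (Y i) δ) ∧ ∀ x ∈ A, ∀ y ∈ A, (∀ i, dist (f i x) (f i y) ≤ ρ (dist x y)) ∧
        ∃ i, σ (dist x y) ≤ dist (f i x) (f i y)

theorem Hy.mono {Y : Type*} [PseudoMetricSpace Y] {δ δ' : ℝ} (h : Hy Y δ) (hd : δ ≤ δ') :
    Hy Y δ' := fun x y z w => (h x y z w).trans (by linarith)

theorem comp_eq {S : Set X} {ρ : ℝ} {a b : X} {M : ℕ} (h : Ch S ρ M a b) :
    {y | ∃ M, Ch S ρ M a y} = {y | ∃ M, Ch S ρ M b y} := by
  ext y
  constructor
  · rintro ⟨M', h'⟩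
    exact h.symm.trans h'
  · rintro ⟨M', h'⟩
    exact h.trans h'

/-- splitting the doubling colours into bounded ones -/
theorem split_emb {m : ℕ} {G : Set (Set X)} (hG : Emb m G) (N : ℕ) (R r : ℝ) :
    ∃ D : ℝ, ∀ A ∈ G, ∀ (n : ℕ) (W : Fin n → Set (Set X)),
      (∀ k, RD r (W k) ∧ ∀ P ∈ W k, Lsd N R P) →
      ∃ W' : Fin (2 ^ m * n) → Set (Set X),
        (∀ k, RD r (W' k) ∧ ∀ P ∈ W' k, ∀ x ∈ P, ∀ y ∈ P, dist x y ≤ D) ∧
        (⋃ k, ⋃₀ W' k) = A ∩ (⋃ k, ⋃₀ W k) := by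
  classical
  obtain ⟨δ₀, ρ, σ, hρ, hσ, hA⟩ := hG
  set δ := max δ₀ 0 with hδ
  set s : ℝ := max R (max 1 (r / 2)) with hs
  have hsR : R ≤ s := le_max_left _ _
  have hs1 : 1 ≤ s := (le_max_left _ _).trans (le_max_right _ _)
  have hsr : r ≤ 2 * s := by
    have : r / 2 ≤ s := (le_max_right _ _).trans (le_max_right _ _)
    linarith
  set L : ℝ := max 1 (ρ (2 * s) + 1) with hL
  have hL1 : 1 ≤ L := le_max_left _ _
  have hLρ : ρ (2 * s) < L := by
    have : ρ (2 * s) + 1 ≤ L := le_max_right _ _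
    linarith
  have hN : N ≤ 2 ^ N := Nat.lt_two_pow_self.le
  obtain ⟨k₀, -, hk1, hk⟩ := exists_scale σ hσ (2 * L + ρ (2 * s)) δ s (le_max_right _ _) hs1 N
  refine ⟨2 ^ k₀ * s - 3 * s, fun A hAG n W hW => ?_⟩
  rcases A.eq_empty_or_nonempty with h0 | ⟨a₀, ha₀⟩
  · refine ⟨fun _ => ∅, fun k => ⟨RD.empty r, by simp⟩, ?_⟩
    simp [h0]
  obtain ⟨Y, hYi, f, hY, hf⟩ := hA A hAG
  have hY' : ∀ i, Hy (Y i) δ := fun i => (hY i).mono (le_max_left _ _)
  let o : ∀ i, Y i := fun i => f i a₀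
  let W' : Fin n × (Fin m → Fin 2) → Set (Set X) := fun κ =>
    {Q | ∃ P ∈ W κ.1, ∃ j : Fin m → ℕ, (∀ i, j i % 2 = κ.2 i) ∧ ∃ a ∈ An A P f o L j,
      Q = {y | ∃ M, Ch (An A P f o L j) (2 * s) M a y}}
  have hcard : Fintype.card (Fin n × (Fin m → Fin 2)) = 2 ^ m * n := by
    simp [mul_comm]
  let e := Fintype.equivFinOfCardEq hcard
  refine ⟨fun k => W' (e.symm k), fun k => ⟨?_, ?_⟩, ?_⟩
  · -- disjointness
    rintro _ ⟨P, hP, j, hj, a, ha, rfl⟩ _ ⟨P', hP', j', hj', a', ha', rfl⟩ hne x hx y hy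
    by_contra hlt
    push Not at hlt
    apply hne
    obtain ⟨M, hM⟩ := hx
    obtain ⟨M', hM'⟩ := hy
    have hxS := hM.symm.mem_left
    have hyS := hM'.symm.mem_left
    have hPP : P = P' := by
      by_contra hPP
      exact absurd ((hW _).1 P hP P' hP' hPP x hxS.2.1 y hyS.2.1) (not_le.2 hlt)
    subst hPP
    have hjj : j = j' := by
      funext i
      by_contra hij
      have hpar : j i % 2 = j' i % 2 := by rw [hj i, hj' i]
      have e1 := hxS.2.2 i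
      have e2 := hyS.2.2 i
      have e3 : dist (f i x) (f i y) < L :=
        lt_of_le_of_lt (((hf x hxS.1 y hyS.1).1 i).trans (hρ (hlt.le.trans hsr))) hLρ
      have e4 := dist_triangle (o i) (f i x) (f i y)
      have e5 := dist_triangle (o i) (f i y) (f i x)
      rw [dist_comm (f i y)] at e5
      rcases Nat.lt_or_gt_of_ne hij with h | h
      · have h2 : (j i : ℝ) + 2 ≤ j' i := by exact_mod_cast (by omega : j i + 2 ≤ j' i)
        nlinarith
      · have h2 : (j' i : ℝ) + 2 ≤ j i := by exact_mod_cast (by omega : j' i + 2 ≤ j i)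
        nlinarith
    subst hjj
    rw [comp_eq hM, comp_eq hM']
    exact comp_eq ((Ch.refl hxS).step hyS (hlt.le.trans hsr))
  · -- the pieces are bounded
    rintro _ ⟨P, hP, j, hj, a, ha, rfl⟩ x ⟨M, hM⟩ y ⟨M', hM'⟩
    obtain ⟨M'', hM''⟩ := hM.symm.trans hM'
    exact comp_bound hY' hρ hf ((hW _).2 P hP) hN (by linarith) hsR hk1 hk j hM''
  · ext x
    simp only [Set.mem_iUnion, Set.mem_sUnion, Set.mem_inter_iff]
    constructor
    · rintro ⟨k, _, ⟨P, hP, j, hj, a, ha, rfl⟩, M, hM⟩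
      have hxS := hM.symm.mem_left
      exact ⟨hxS.1, _, P, hP, hxS.2.1⟩
    · rintro ⟨hxA, k, P, hP, hxP⟩
      let j : Fin m → ℕ := fun i => ⌊dist (o i) (f i x) / L⌋₊
      have hxS : x ∈ An A P f o L j := by
        refine ⟨hxA, hxP, fun i => ⟨?_, ?_⟩⟩
        · rw [← le_div_iff₀ (by linarith)]
          exact Nat.floor_le (by positivity)
        · rw [← div_lt_iff₀ (by linarith)]
          exact Nat.lt_floor_add_one _
      refine ⟨e (k, fun i => ⟨j i % 2, Nat.mod_lt _ (by norm_num)⟩), _,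
        ⟨P, ?_, j, ?_, x, hxS, rfl⟩, 0, Ch.refl hxS⟩
      · rw [Equiv.symm_apply_apply]
        exact hP
      · intro i
        rw [Equiv.symm_apply_apply]

/-- the least class of families which contains the families embedded into products of
hyperbolic spaces and is closed under 1-decomposition -/
def RelFD (F : Set (Set X)) : Prop :=
  ∀ E : Set (Set (Set X)), (∀ (m : ℕ) (G : Set (Set X)), Emb m G → G ∈ E) →
    (∀ G : Set (Set X), (∀ r : ℝ, 0 < r → ∃ Y ∈ E, Dec2 r G Y) → G ∈ E) → F ∈ E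

theorem main {n : ℕ} (hX : ∀ r : ℝ, 0 < r → ∃ Z : Set (Set X), FD Z ∧ ∃ (N : ℕ) (R : ℝ)
      (V : Fin 2 → Set (Set X)) (W : Fin n → Set (Set X)), (∀ k, V k ⊆ Z ∧ RD r (V k)) ∧
        (∀ k, RD r (W k) ∧ ∀ P ∈ W k, Lsd N R P) ∧
        (Set.univ : Set X) = (⋃ k, ⋃₀ V k) ∪ (⋃ k, ⋃₀ W k))
    {F : Set (Set X)} (hF : RelFD F) : FD F := by
  refine hF {G | FD G} ?_ ?_
  · intro m G hG
    refine Kdec.fd (n := 2 ^ m * n) ?_
    intro r hr
    obtain ⟨Z, hZ, N, R, V, W, hV, hW, hVW⟩ := hX r hr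
    obtain ⟨D, hD⟩ := split_emb hG N R r
    refine ⟨sub Z, hZ.of_sub _ subset_rfl, D, fun A hA => ?_⟩
    obtain ⟨W', h1, h2⟩ := hD A hA n W hW
    refine ⟨fun k => (fun P => P ∩ A) '' V k, W', fun k => ⟨?_, (hV k).2.inter A⟩, h1, ?_⟩
    · rintro _ ⟨P, hP, rfl⟩
      exact ⟨P, (hV k).1 hP, Set.inter_subset_left⟩
    · rw [h2]
      ext x
      have hx : x ∈ (⋃ k, ⋃₀ V k) ∪ (⋃ k, ⋃₀ W k) := by
        rw [← hVW]
        trivial
      simp only [Set.mem_union, Set.mem_iUnion, Set.mem_sUnion, Set.mem_image,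
        exists_exists_and_eq_and, Set.mem_inter_iff] at hx ⊢
      constructor
      · intro hxA
        rcases hx with ⟨k, P, hP, hxP⟩ | hx
        · exact Or.inl ⟨k, P, hP, hxP, hxA⟩
        · exact Or.inr ⟨hxA, hx⟩
      · rintro (⟨k, P, hP, hxP, hxA⟩ | ⟨hxA, -⟩)
        · exact hxA
        · exact hxA
  · intro G hG
    exact FD.of_dec fun r hr => by
      obtain ⟨Y, hY, hd⟩ := hG r hr
      exact ⟨Y, hY, hd⟩

end Pool.Agent.H60.HX
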