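import Pool.Agent.H60.HX.Sub

/-!
# Examples of families with subpolynomial chains
-/

set_option autoImplicit false

namespace Pool.Agent.H60.HX

open Pool.Agent.H60.W Filter

variable {X : Type*} [PseudoMetricSpace X]

theorem emb_one {m : ℕ} {Y : Fin m → Type*} [∀ i, PseudoMetricSpace (Y i)] {A : Set X}
    {f : ∀ i, X → Y i} {δ : ℝ} {ρ σ : ℝ → ℝ} (hY : ∀ i, Hy (Y i) δ)
    (hρ : Monotone ρ) (hf : ∀ x ∈ A, ∀ y ∈ A, (∀ i, dist (f i x) (f i y) ≤ ρ (dist x y)) ∧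
      ∃ i, σ (dist x y) ≤ dist (f i x) (f i y)) (ρ₀ : ℝ) :
    ∃ c : X → Fin (2 ^ m), ∀ (M : ℕ) (x : ℕ → X), (∀ t ≤ M, x t ∈ A ∧ c (x t) = c (x 0)) →
      (∀ t < M, dist (x t) (x (t + 1)) ≤ ρ₀) → ∀ p : ℕ, 1 ≤ M → M ≤ 2 ^ p →
      σ (dist (x 0) (x M)) ≤ 2 * max 1 (ρ ρ₀ + 1) + ρ ρ₀ + 2 * δ * p := by
  classical
  have hcard : Fintype.card (Fin m → Fin 2) = 2 ^ m := by simp
  let e := Fintype.equivFinOfCardEq hcard
  rcases A.eq_empty_or_nonempty with h0 | ⟨a₀, ha₀⟩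
  · refine ⟨fun _ => e (fun _ => 0), fun M x hx => ?_⟩
    have := (hx 0 (Nat.zero_le _)).1
    rw [h0] at this
    exact absurd this (Set.notMem_empty _)
  set L : ℝ := max 1 (ρ ρ₀ + 1) with hL
  have hL1 : 1 ≤ L := le_max_left _ _
  have hLρ : ρ ρ₀ < L := by
    have : ρ ρ₀ + 1 ≤ L := le_max_right _ _
    linarith
  let o : ∀ i, Y i := fun i => f i a₀
  let j : X → Fin m → ℕ := fun x i => ⌊dist (o i) (f i x) / L⌋₊
  have hj : ∀ x i, (j x i : ℝ) * L ≤ dist (o i) (f i x) ∧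
      dist (o i) (f i x) < ((j x i : ℝ) + 1) * L := by
    intro x i
    constructor
    · rw [← le_div_iff₀ (by linarith)]
      exact Nat.floor_le (by positivity)
    · rw [← div_lt_iff₀ (by linarith)]
      exact Nat.lt_floor_add_one _
  refine ⟨fun x => e (fun i => ⟨j x i % 2, Nat.mod_lt _ (by norm_num)⟩),
    fun M x hx hd p h1 hp => ?_⟩
  -- consecutive points are in the same annulus
  have hstep : ∀ t < M, ∀ i, dist (f i (x t)) (f i (x (t + 1))) ≤ ρ ρ₀ := by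
    intro t ht i
    exact ((hf _ (hx t ht.le).1 _ (hx (t + 1) ht).1).1 i).trans (hρ (hd t ht))
  have hpar : ∀ t ≤ M, ∀ i, j (x t) i % 2 = j (x 0) i % 2 := by
    intro t ht i
    have h2 := e.injective (hx t ht).2
    have h3 := congrFun h2 i
    exact congrArg Fin.val h3
  have hann : ∀ t, t ≤ M → j (x t) = j (x 0) := by
    intro t
    induction t with
    | zero => intro _; rfl
    | succ t ih =>
      intro ht
      rw [← ih (by omega)]
      funext i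
      by_contra hij
      have hp1 := hpar t (by omega) i
      have hp2 := hpar (t + 1) ht i
      have e1 := hj (x t) i
      have e2 := hj (x (t + 1)) i
      have e3 := hstep t (by omega) i
      have e4 := dist_triangle (o i) (f i (x t)) (f i (x (t + 1)))
      have e5 := dist_triangle (o i) (f i (x (t + 1))) (f i (x t))
      rw [dist_comm (f i (x (t + 1)))] at e5
      rcases Nat.lt_or_gt_of_ne hij with h | h
      · have h2 : (j (x (t + 1)) i : ℝ) + 2 ≤ j (x t) i := by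
          exact_mod_cast (by omega : j (x (t + 1)) i + 2 ≤ j (x t) i)
        nlinarith
      · have h2 : (j (x t) i : ℝ) + 2 ≤ j (x (t + 1)) i := by
          exact_mod_cast (by omega : j (x t) i + 2 ≤ j (x (t + 1)) i)
        nlinarith
  have hdisp : ∀ i, dist (f i (x 0)) (f i (x M)) ≤ 2 * L + ρ ρ₀ + 2 * δ * p := by
    intro i
    have hg := gp_chain (hY i) (o i) ((j (x 0) i : ℝ) * L - ρ ρ₀ / 2) p M h1 hp
      (fun t => f i (x t)) (fun t ht => by
        have e1 := hj (x t) i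
        have e2 := hj (x (t + 1)) i
        rw [hann t ht.le] at e1
        rw [hann (t + 1) ht] at e2
        have e3 := hstep t ht i
        unfold gp
        linarith [e1.1, e2.1])
    unfold gp at hg
    have e1 := hj (x 0) i
    have e2 := hj (x M) i
    rw [hann M le_rfl] at e2
    have e3 := e1.2
    have e4 := e2.2
    linarith
  obtain ⟨i, hi⟩ := (hf _ (hx 0 (Nat.zero_le _)).1 _ (hx M le_rfl).1).2
  exact hi.trans (hdisp i)

/-- embedded families have subpolynomial chains -/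
theorem sub_of_emb {m : ℕ} {G : Set (Set X)} (hG : Emb m G) : SubCh (2 ^ m) G := by
  classical
  obtain ⟨δ₀, ρ, σ, hρ, hσ, hA⟩ := hG
  set δ := max δ₀ 0 with hδ
  have hδ0 : 0 ≤ δ := le_max_right _ _
  intro ρ₀ hρ₀
  have hone : ∀ A : Set X, ∃ c : X → Fin (2 ^ m), A ∈ G → ∀ (M : ℕ) (x : ℕ → X),
      (∀ t ≤ M, x t ∈ A ∧ c (x t) = c (x 0)) → (∀ t < M, dist (x t) (x (t + 1)) ≤ ρ₀) →
      ∀ p : ℕ, 1 ≤ M → M ≤ 2 ^ p →
      σ (dist (x 0) (x M)) ≤ 2 * max 1 (ρ ρ₀ + 1) + ρ ρ₀ + 2 * δ * p := by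
    intro A
    by_cases h : A ∈ G
    · obtain ⟨Y, hYi, f, hY, hf⟩ := hA A h
      obtain ⟨c, hc⟩ := emb_one (fun i => (hY i).mono (le_max_left δ₀ 0)) hρ hf ρ₀
      exact ⟨c, fun _ => hc⟩
    · exact ⟨fun _ => ⟨0, by positivity⟩, fun h' => absurd h' h⟩
  choose c hc using hone
  refine ⟨c, fun ε hε => ?_⟩
  set A₀ : ℝ := 2 * max 1 (ρ ρ₀ + 1) + ρ ρ₀ with hA₀
  have hl2 : 0 < Real.log 2 := Real.log_pos (by norm_num)
  set K : ℝ := (2 * δ + 1) / (ε * Real.log 2) with hK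
  have hK0 : 0 < K := by positivity
  obtain ⟨t₀, ht₀⟩ := eventually_atTop.1 (hσ.eventually_ge_atTop K)
  set t₁ := max t₀ 2 with ht₁
  refine ⟨max t₁ (Real.exp ((A₀ + 2 * δ) / K)), fun A hAG M x hx hd => ?_⟩
  have hM1 : (1 : ℝ) ≤ (M : ℝ) + 1 := by
    have : (0 : ℝ) ≤ M := by positivity
    linarith
  have hpow : (1 : ℝ) ≤ ((M : ℝ) + 1) ^ ε := Real.one_le_rpow hM1 hε.le
  have ht₁0 : 0 < t₁ := lt_of_lt_of_le (by norm_num) (le_max_right t₀ 2)
  have hmax0 : 0 < max t₁ (Real.exp ((A₀ + 2 * δ) / K)) := lt_of_lt_of_le ht₁0 (le_max_left _ _)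
  by_cases hD : dist (x 0) (x M) < t₁
  · calc dist (x 0) (x M) ≤ max t₁ (Real.exp ((A₀ + 2 * δ) / K)) * 1 := by
          rw [mul_one]
          exact hD.le.trans (le_max_left _ _)
      _ ≤ _ := mul_le_mul_of_nonneg_left hpow hmax0.le
  push Not at hD
  set D := dist (x 0) (x M) with hDdef
  have hM : 1 ≤ M := by
    rcases Nat.eq_zero_or_pos M with h | h
    · exfalso
      rw [hDdef, h, dist_self] at hD
      linarith
    · exact h
  have hD2 : 2 ≤ D := (le_max_right _ _).trans hD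
  have hlogD : 0 < Real.log D := Real.log_pos (by linarith)
  have h1 := ht₀ D ((le_max_left _ _).trans hD)
  rw [le_div_iff₀ hlogD] at h1
  have h2 := hc A hAG M x hx hd (Nat.log 2 M + 1) hM (Nat.lt_pow_succ_log_self (by norm_num) M).le
  have h3 : ((Nat.log 2 M : ℕ) : ℝ) * Real.log 2 ≤ Real.log ((M : ℝ) + 1) := by
    rw [← Real.log_pow]
    apply Real.log_le_log (by positivity)
    have : 2 ^ Nat.log 2 M ≤ M := Nat.pow_log_le_self 2 (by omega)
    have h4 : ((2 : ℝ)) ^ Nat.log 2 M ≤ M := by exact_mod_cast this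
    linarith
  have h4 : K * Real.log D ≤ A₀ + 2 * δ + K * (ε * Real.log ((M : ℝ) + 1)) := by
    have e1 : 2 * δ * ((Nat.log 2 M : ℕ) : ℝ) ≤ K * (ε * Real.log ((M : ℝ) + 1)) := by
      have e2 : K * (ε * Real.log ((M : ℝ) + 1)) =
          (2 * δ + 1) * (Real.log ((M : ℝ) + 1) / Real.log 2) := by
        rw [hK]
        field_simp
      rw [e2]
      have e3 : ((Nat.log 2 M : ℕ) : ℝ) ≤ Real.log ((M : ℝ) + 1) / Real.log 2 := by
        rw [le_div_iff₀ hl2]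
        exact h3
      have e4 : (0 : ℝ) ≤ ((Nat.log 2 M : ℕ) : ℝ) := by positivity
      nlinarith
    push_cast at h2
    linarith
  have h5 : Real.log D ≤ (A₀ + 2 * δ) / K + ε * Real.log ((M : ℝ) + 1) := by
    have e : A₀ + 2 * δ + K * (ε * Real.log ((M : ℝ) + 1)) =
        K * ((A₀ + 2 * δ) / K + ε * Real.log ((M : ℝ) + 1)) := by
      field_simp
    rw [e] at h4
    exact le_of_mul_le_mul_left h4 hK0
  have h6 : D ≤ Real.exp ((A₀ + 2 * δ) / K) * ((M : ℝ) + 1) ^ ε := by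
    rw [Real.rpow_def_of_pos (by linarith), ← Real.exp_add, ← Real.log_le_iff_le_exp (by linarith)]
    linarith
  refine h6.trans (mul_le_mul_of_nonneg_right (le_max_right _ _) (by positivity))

/-- uniformly finite asymptotic dimension -/
theorem sub_of_bdd {k : ℕ} {G : Set (Set X)} (h : ∀ r : ℝ, 0 < r → ∃ D : ℝ, ∀ A ∈ G,
    ∃ U : Fin k → Set (Set X), (⋃ i, ⋃₀ U i) = A ∧
      ∀ i, RD r (U i) ∧ ∀ P ∈ U i, ∀ x ∈ P, ∀ y ∈ P, dist x y ≤ D) (hk : 0 < k) :
    SubCh k G := by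
  classical
  intro ρ hρ
  obtain ⟨D, hD⟩ := h (ρ + 1) (by linarith)
  choose! U hU1 hU2 using hD
  have hcol : ∀ (A : Set X) (x : X), ∃ i : Fin k, A ∈ G → x ∈ A → x ∈ ⋃₀ U A i := by
    intro A x
    by_cases h : A ∈ G ∧ x ∈ A
    · have h1 := h.2
      rw [← hU1 A h.1] at h1
      obtain ⟨i, hi⟩ := Set.mem_iUnion.1 h1
      exact ⟨i, fun _ _ => hi⟩
    · exact ⟨⟨0, hk⟩, fun h1 h2 => absurd ⟨h1, h2⟩ h⟩
  choose c hc using hcol
  refine ⟨c, fun ε hε => ⟨max D 0, fun A hA M x hx hd => ?_⟩⟩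
  obtain ⟨P, hP, h0P⟩ := hc A (x 0) hA (hx 0 (Nat.zero_le _)).1
  have hall : ∀ t, t ≤ M → x t ∈ P := by
    intro t
    induction t with
    | zero => intro _; exact h0P
    | succ t ih =>
      intro ht
      have h1 := ih (by omega)
      obtain ⟨Q, hQ, htQ⟩ := hc A (x (t + 1)) hA (hx (t + 1) ht).1
      rw [(hx (t + 1) ht).2] at hQ
      by_cases hPQ : P = Q
      · rw [hPQ]
        exact htQ
      · have h2 := (hU2 A hA _).1 P hP Q hQ hPQ _ h1 _ htQ
        have h3 := hd t (by omega)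
        linarith
  have h1 : dist (x 0) (x M) ≤ D := (hU2 A hA _).2 P hP _ h0P _ (hall M le_rfl)
  have hM1 : (1 : ℝ) ≤ (M : ℝ) + 1 := by
    have : (0 : ℝ) ≤ M := by positivity
    linarith
  have hpow : (1 : ℝ) ≤ ((M : ℝ) + 1) ^ ε := Real.one_le_rpow hM1 hε.le
  calc dist (x 0) (x M) ≤ max D 0 * 1 := by
        rw [mul_one]
        exact h1.trans (le_max_left _ _)
    _ ≤ max D 0 * ((M : ℝ) + 1) ^ ε := mul_le_mul_of_nonneg_left hpow (le_max_right _ _)

theorem sub_of_bounded {G : Set (Set X)} (h : Bdd G) : SubCh 1 G := by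
  obtain ⟨D, hD⟩ := h
  refine sub_of_bdd (fun r hr => ⟨D, fun A hA => ⟨fun _ => {A}, ?_, fun i => ⟨RD.singleton r A, ?_⟩⟩⟩)
    Nat.one_pos
  · ext x
    simp
  · intro P hP
    rw [Set.mem_singleton_iff] at hP
    rw [hP]
    exact hD A hA

/-- finite decomposition complexity implies the relative one -/
theorem rel_of_fd {F : Set (Set X)} (h : FD F) : RelS F := by
  intro E h1 h2
  exact h E (fun G hG => h1 1 G (sub_of_bounded hG)) h2

/-- the number of bounded colours -/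
theorem asdim_of_sub {n k : ℕ} (hX : ∀ r : ℝ, 0 < r → ∃ (N : ℕ) (R : ℝ)
      (W : Fin n → Set (Set X)), (∀ i, RD r (W i) ∧ ∀ P ∈ W i, Lsd N R P) ∧
        (Set.univ : Set X) = (⋃ i, ⋃₀ W i))
    (h : SubCh k {(Set.univ : Set X)}) : ∀ r : ℝ, 0 < r → ∃ D : ℝ,
    ∃ U : Fin (k * n) → Set (Set X), (⋃ i, ⋃₀ U i) = Set.univ ∧
      ∀ i, RD r (U i) ∧ ∀ P ∈ U i, ∀ x ∈ P, ∀ y ∈ P, dist x y ≤ D := by
  intro r hr
  obtain ⟨N, R, W, hW, hWu⟩ := hX r hr
  obtain ⟨D, hD⟩ := split_sub h N R r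
  obtain ⟨W', h1, h2⟩ := hD Set.univ rfl n W hW
  refine ⟨D, W', ?_, h1⟩
  rw [h2, ← hWu, Set.univ_inter]

end Pool.Agent.H60.HX
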