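import Pool.Agent.H60.HX.Fam

/-!
# Colourings with subpolynomial chains
-/

set_option autoImplicit false

namespace Pool.Agent.H60.HX

open Pool.Agent.H60.W Filter

variable {X : Type*} [PseudoMetricSpace X]

/-- for every `ρ` the members of `G` have colourings with `k` colours such that for every `ε > 0`
the ends of every monochromatic chain of `M` steps of length at most `ρ` have distance at most
`C (M + 1) ^ ε` -/
def SubCh (k : ℕ) (G : Set (Set X)) : Prop :=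
  ∀ ρ : ℝ, 0 < ρ → ∃ c : Set X → X → Fin k, ∀ ε : ℝ, 0 < ε → ∃ C : ℝ, ∀ A ∈ G, ∀ (M : ℕ)
    (x : ℕ → X), (∀ t ≤ M, x t ∈ A ∧ c A (x t) = c A (x 0)) →
    (∀ t < M, dist (x t) (x (t + 1)) ≤ ρ) → dist (x 0) (x M) ≤ C * ((M : ℝ) + 1) ^ ε

theorem exists_scale' (C s : ℝ) (hs : 1 ≤ s) (q : ℕ) :
    ∃ k : ℕ, 1 ≤ 2 ^ k * s - 3 * s ∧
      C * (((2 ^ (1 + k * q) : ℕ) : ℝ) + 1) ^ (1 / (2 * ((q : ℝ) + 1))) < 2 ^ k * s - 3 * s := by
  set ε : ℝ := 1 / (2 * ((q : ℝ) + 1)) with hε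
  have hε0 : 0 < ε := by positivity
  obtain ⟨k, hk⟩ := exists_nat_gt (max 5 (64 * (max C 0) ^ 2))
  have hk5 : (5 : ℝ) < k := lt_of_le_of_lt (le_max_left _ _) hk
  have hkC : 64 * (max C 0) ^ 2 < k := lt_of_le_of_lt (le_max_right _ _) hk
  have hk5' : 5 < k := by exact_mod_cast hk5
  have hk2 : (k : ℝ) < 2 ^ k := by exact_mod_cast Nat.lt_two_pow_self
  have h8 : (8 : ℝ) ≤ 2 ^ k := by
    calc (8 : ℝ) = 2 ^ 3 := by norm_num
      _ ≤ 2 ^ k := pow_le_pow_right₀ (by norm_num) (by omega)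
  have hlow : (2 : ℝ) ^ k / 2 ≤ 2 ^ k * s - 3 * s := by nlinarith
  refine ⟨k, by linarith, lt_of_lt_of_le ?_ hlow⟩
  -- the power
  have h1 : (((2 ^ (1 + k * q) : ℕ) : ℝ) + 1) ≤ (2 : ℝ) ^ ((2 : ℝ) + k * q) := by
    have e : (2 : ℝ) ^ ((2 : ℝ) + k * q) = 2 * (2 : ℝ) ^ (1 + k * q) := by
      rw [show ((2 : ℝ) + k * q) = ((1 + (1 + k * q) : ℕ) : ℝ) by push_cast; ring,
        Real.rpow_natCast, pow_add, pow_one]
    rw [e]
    push_cast
    have : (1 : ℝ) ≤ 2 ^ (1 + k * q) := one_le_pow₀ (by norm_num)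
    linarith
  have h2 : (((2 ^ (1 + k * q) : ℕ) : ℝ) + 1) ^ ε ≤ 2 * (2 : ℝ) ^ ((k : ℝ) / 2) := by
    calc (((2 ^ (1 + k * q) : ℕ) : ℝ) + 1) ^ ε ≤ ((2 : ℝ) ^ ((2 : ℝ) + k * q)) ^ ε :=
          Real.rpow_le_rpow (by positivity) h1 hε0.le
      _ = (2 : ℝ) ^ (((2 : ℝ) + k * q) * ε) := by rw [← Real.rpow_mul (by norm_num)]
      _ ≤ (2 : ℝ) ^ ((1 : ℝ) + (k : ℝ) / 2) := by
          apply Real.rpow_le_rpow_of_exponent_le (by norm_num)
          rw [hε, mul_one_div, div_le_iff₀ (by positivity)]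
          have hq : (0 : ℝ) ≤ q := by positivity
          have hk0 : (0 : ℝ) ≤ k := by positivity
          nlinarith
      _ = 2 * (2 : ℝ) ^ ((k : ℝ) / 2) := by
          rw [Real.rpow_add (by norm_num), Real.rpow_one]
  have h3 : (2 : ℝ) ^ k = ((2 : ℝ) ^ ((k : ℝ) / 2)) ^ 2 := by
    rw [← Real.rpow_natCast ((2 : ℝ) ^ ((k : ℝ) / 2)), ← Real.rpow_mul (by norm_num)]
    rw [← Real.rpow_natCast]
    congr 1
    push_cast
    ring
  set v := (2 : ℝ) ^ ((k : ℝ) / 2) with hv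
  have hv0 : 0 < v := by positivity
  have hC0 : 0 ≤ max C 0 := le_max_right _ _
  have h4 : 8 * max C 0 < v := by
    have : (8 * max C 0) ^ 2 < v ^ 2 := by
      rw [← h3]
      nlinarith
    exact lt_of_pow_lt_pow_left₀ 2 hv0.le this
  have h5 : 0 ≤ (((2 ^ (1 + k * q) : ℕ) : ℝ) + 1) ^ ε := by positivity
  calc C * (((2 ^ (1 + k * q) : ℕ) : ℝ) + 1) ^ ε ≤
        max C 0 * (((2 ^ (1 + k * q) : ℕ) : ℝ) + 1) ^ ε :=
        mul_le_mul_of_nonneg_right (le_max_left _ _) h5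
    _ ≤ max C 0 * (2 * v) := mul_le_mul_of_nonneg_left h2 hC0
    _ < 2 ^ k / 2 := by
        rw [h3]
        nlinarith

/-- components of a colour in a doubling set are bounded -/
theorem comp_bound' {W S : Set X} {N q k : ℕ} {R : ℝ} (hW : Lsd N R W) (hN : N ≤ 2 ^ q)
    {s C ε : ℝ} (hs0 : 0 ≤ s) (hs : R ≤ s) (hSW : S ⊆ W) (hε : 0 < ε)
    (h1 : 1 ≤ 2 ^ k * s - 3 * s)
    (hk : C * (((2 ^ (1 + k * q) : ℕ) : ℝ) + 1) ^ ε < 2 ^ k * s - 3 * s)
    (hch : ∀ (M : ℕ) (x : ℕ → X), (∀ t ≤ M, x t ∈ S) →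
      (∀ t < M, dist (x t) (x (t + 1)) ≤ 2 * s) → dist (x 0) (x M) ≤ C * ((M : ℝ) + 1) ^ ε)
    {M : ℕ} {a b : X} (hab : Ch S (2 * s) M a b) :
    dist a b ≤ 2 ^ k * s - 3 * s := by
  classical
  by_contra hcon
  push Not at hcon
  set D := 2 ^ k * s - 3 * s with hD
  obtain ⟨x, h0, hM, hxS, hxd⟩ := hab
  have hex : ∃ t, t ≤ M ∧ D < dist a (x t) := ⟨M, le_rfl, by rw [hM]; exact hcon⟩
  obtain ⟨hT1, hT2⟩ := Nat.find_spec hex
  set T := Nat.find hex with hT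
  have hTmin : ∀ t < T, dist a (x t) ≤ D := by
    intro t ht
    have := Nat.find_min hex ht
    push Not at this
    exact this (by omega)
  have hT0 : 0 < T := by
    rcases Nat.eq_zero_or_pos T with h | h
    · rw [h, h0, dist_self] at hT2
      linarith
    · exact h
  have hTle : dist a (x T) ≤ D + 2 * s := by
    have e1 := hTmin (T - 1) (by omega)
    have e2 := hxd (T - 1) (by omega)
    rw [Nat.sub_add_cancel hT0] at e2
    have := dist_triangle a (x (T - 1)) (x T)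
    linarith
  have hspos : 0 < s := by
    rcases hs0.lt_or_eq with h | h
    · exact h
    · rw [hD, ← h] at h1
      norm_num at h1
  have hch' : Ch (S ∩ Metric.ball a (2 ^ k * s)) (2 * s) T a (x T) := by
    refine ⟨x, h0, rfl, fun t ht => ⟨hxS t (by omega), ?_⟩, fun t ht => hxd t (by omega)⟩
    rw [Metric.mem_ball, dist_comm]
    rcases ht.lt_or_eq with h | h
    · have := hTmin t h
      linarith
    · rw [h]
      linarith
  obtain ⟨M', y, hy0, hyM, hyS, hyd, hysep⟩ := hch'.short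
  have hlen : M' ≤ 2 ^ (1 + k * q) := by
    refine short_len hW hN hs0 hs k a (S := S ∩ Metric.ball a (2 ^ k * s)) ?_ M' y hyS hysep
    rintro z ⟨hz, hzb⟩
    exact ⟨hSW hz, hzb⟩
  have h5 := hch M' y (fun t ht => (hyS t ht).1) hyd
  rw [hy0, hyM] at h5
  have h6 : D < C * ((M' : ℝ) + 1) ^ ε := hT2.trans_le h5
  have hpow : ((M' : ℝ) + 1) ^ ε ≤ (((2 ^ (1 + k * q) : ℕ) : ℝ) + 1) ^ ε := by
    apply Real.rpow_le_rpow (by positivity) _ hε.le
    have : (M' : ℝ) ≤ ((2 ^ (1 + k * q) : ℕ) : ℝ) := by exact_mod_cast hlen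
    linarith
  have hC0 : 0 ≤ C := by
    by_contra hneg
    push Not at hneg
    have : C * ((M' : ℝ) + 1) ^ ε ≤ 0 := mul_nonpos_of_nonpos_of_nonneg hneg.le (by positivity)
    linarith
  have h7 := mul_le_mul_of_nonneg_left hpow hC0
  linarith

/-- splitting the doubling colours into bounded ones -/
theorem split_sub {k : ℕ} {G : Set (Set X)} (hG : SubCh k G) (N : ℕ) (R r : ℝ) :
    ∃ D : ℝ, ∀ A ∈ G, ∀ (n : ℕ) (W : Fin n → Set (Set X)),
      (∀ i, RD r (W i) ∧ ∀ P ∈ W i, Lsd N R P) →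
      ∃ W' : Fin (k * n) → Set (Set X),
        (∀ i, RD r (W' i) ∧ ∀ P ∈ W' i, ∀ x ∈ P, ∀ y ∈ P, dist x y ≤ D) ∧
        (⋃ i, ⋃₀ W' i) = A ∩ (⋃ i, ⋃₀ W i) := by
  classical
  set s : ℝ := max R (max 1 (r / 2)) with hs
  have hsR : R ≤ s := le_max_left _ _
  have hs1 : 1 ≤ s := (le_max_left _ _).trans (le_max_right _ _)
  have hsr : r ≤ 2 * s := by
    have : r / 2 ≤ s := (le_max_right _ _).trans (le_max_right _ _)
    linarith
  have hN : N ≤ 2 ^ N := Nat.lt_two_pow_self.le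
  obtain ⟨c, hc⟩ := hG (2 * s) (by linarith)
  have hε : (0 : ℝ) < 1 / (2 * ((N : ℝ) + 1)) := by positivity
  obtain ⟨C, hC⟩ := hc _ hε
  obtain ⟨k₀, hk1, hk⟩ := exists_scale' C s hs1 N
  refine ⟨2 ^ k₀ * s - 3 * s, fun A hAG n W hW => ?_⟩
  let S : Set X → Fin k → Set X := fun P i => {x | x ∈ A ∧ x ∈ P ∧ c A x = i}
  let W' : Fin k × Fin n → Set (Set X) := fun κ =>
    {Q | ∃ P ∈ W κ.2, ∃ a ∈ S P κ.1, Q = {y | ∃ M, Ch (S P κ.1) (2 * s) M a y}}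
  refine ⟨fun i => W' (finProdFinEquiv.symm i), fun i => ⟨?_, ?_⟩, ?_⟩
  · rintro _ ⟨P, hP, a, ha, rfl⟩ _ ⟨P', hP', a', ha', rfl⟩ hne x hx y hy
    by_contra hlt
    push Not at hlt
    apply hne
    obtain ⟨M, hM⟩ := hx
    obtain ⟨M', hM'⟩ := hy
    have hxS := hM.symm.mem_left
    have hyS := hM'.symm.mem_left
    have hPP : P = P' := by
      by_contra hPP
      exact absurd ((hW _).1 P hP P' hP' hPP x hxS.2.1 y hyS.2.1) (not_le.2 hlt)
    subst hPP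
    rw [comp_eq hM, comp_eq hM']
    exact comp_eq ((Ch.refl hxS).step hyS (hlt.le.trans hsr))
  · rintro _ ⟨P, hP, a, ha, rfl⟩ x ⟨M, hM⟩ y ⟨M', hM'⟩
    obtain ⟨M'', hM''⟩ := hM.symm.trans hM'
    refine comp_bound' ((hW _).2 P hP) hN (by linarith) hsR (S := S P _)
      (fun z hz => hz.2.1) hε hk1 hk ?_ hM''
    intro M x hx hxd
    refine hC A hAG M x (fun t ht => ⟨(hx t ht).1, ?_⟩) hxd
    rw [(hx t ht).2.2, (hx 0 (Nat.zero_le _)).2.2]
  · ext x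
    simp only [Set.mem_iUnion, Set.mem_sUnion, Set.mem_inter_iff]
    constructor
    · rintro ⟨i, _, ⟨P, hP, a, ha, rfl⟩, M, hM⟩
      have hxS := hM.symm.mem_left
      exact ⟨hxS.1, _, P, hP, hxS.2.1⟩
    · rintro ⟨hxA, i, P, hP, hxP⟩
      have hxS : x ∈ S P (c A x) := ⟨hxA, hxP, rfl⟩
      refine ⟨finProdFinEquiv (c A x, i), {y | ∃ M, Ch (S P (c A x)) (2 * s) M x y}, ?_, 0,
        Ch.refl hxS⟩
      rw [Equiv.symm_apply_apply]
      exact ⟨P, hP, x, hxS, rfl⟩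

/-- the least class of families which contains the families with subpolynomial chains and is
closed under 1-decomposition -/
def RelS (F : Set (Set X)) : Prop :=
  ∀ E : Set (Set (Set X)), (∀ (k : ℕ) (G : Set (Set X)), SubCh k G → G ∈ E) →
    (∀ G : Set (Set X), (∀ r : ℝ, 0 < r → ∃ Y ∈ E, Dec2 r G Y) → G ∈ E) → F ∈ E

theorem mainS {n : ℕ} (hX : ∀ r : ℝ, 0 < r → ∃ Z : Set (Set X), FD Z ∧ ∃ (N : ℕ) (R : ℝ)
      (V : Fin 2 → Set (Set X)) (W : Fin n → Set (Set X)), (∀ k, V k ⊆ Z ∧ RD r (V k)) ∧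
        (∀ k, RD r (W k) ∧ ∀ P ∈ W k, Lsd N R P) ∧
        (Set.univ : Set X) = (⋃ k, ⋃₀ V k) ∪ (⋃ k, ⋃₀ W k))
    {F : Set (Set X)} (hF : RelS F) : FD F := by
  refine hF {G | FD G} ?_ ?_
  · intro m G hG
    refine Kdec.fd (n := m * n) ?_
    intro r hr
    obtain ⟨Z, hZ, N, R, V, W, hV, hW, hVW⟩ := hX r hr
    obtain ⟨D, hD⟩ := split_sub hG N R r
    refine ⟨sub Z, hZ.of_sub _ subset_rfl, D, fun A hA => ?_⟩
    obtain ⟨W', h1, h2⟩ := hD A hA n W hW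
    refine ⟨fun k => (fun P => P ∩ A) '' V k, W', fun k => ⟨?_, (hV k).2.inter A⟩, h1, ?_⟩
    · rintro _ ⟨P, hP, rfl⟩
      exact ⟨P, (hV k).1 hP, Set.inter_subset_left⟩
    · rw [h2]
      ext x
      have hx : x ∈ (⋃ k, ⋃₀ V k) ∪ (⋃ k, ⋃₀ W k) := by
        rw [← hVW]
        trivial
      simp only [Set.mem_union, Set.mem_iUnion, Set.mem_sUnion, Set.mem_image,
        exists_exists_and_eq_and, Set.mem_inter_iff] at hx ⊢
      constructor
      · intro hxA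
        rcases hx with ⟨k, P, hP, hxP⟩ | hx
        · exact Or.inl ⟨k, P, hP, hxP, hxA⟩
        · exact Or.inr ⟨hxA, hx⟩
      · rintro (⟨k, P, hP, hxP, hxA⟩ | ⟨hxA, -⟩)
        · exact hxA
        · exact hxA
  · intro G hG
    exact FD.of_dec fun r hr => by
      obtain ⟨Y, hY, hd⟩ := hG r hr
      exact ⟨Y, hY, hd⟩

end Pool.Agent.H60.HX
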